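import Mathlib

set_option autoImplicit false

/-!
# Claw-free graphs have unbounded bend-number
-/

namespace Pool.Agent.Results.MP_fe8c60_co.CobipartiteCounting

/-- The planar square grid: integer points, adjacent at Euclidean distance 1, i.e. if the
coordinate differences have absolute values summing to 1. -/
def grid : SimpleGraph (ℤ × ℤ) where
  Adj p q := |p.1 - q.1| + |p.2 - q.2| = 1
  symm := ⟨fun p q h => by rw [abs_sub_comm q.1, abs_sub_comm q.2]; exact h⟩
  loopless := ⟨fun p h => by simp at h⟩

/-- The number of bends of a list of points (consecutive ones adjacent in the grid): the number of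
interior points at which it switches between a vertical edge (equal first coordinates) and a
horizontal edge (equal second coordinates). -/
def bendCount : List (ℤ × ℤ) → ℕ
  | a :: b :: c :: l =>
    (if (a.1 = b.1 ∧ b.2 = c.2) ∨ (a.2 = b.2 ∧ b.1 = c.1) then 1 else 0) + bendCount (b :: c :: l)
  | _ => 0

/-- G has a k-bend EPG representation: grid paths P v with at most k bends such that distinct u, v
are adjacent iff P u and P v have a common grid edge. -/
def HasEPG {V : Type} (G : SimpleGraph V) (k : ℕ) : Prop :=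
  ∃ (s t : V → ℤ × ℤ) (P : ∀ v, grid.Walk (s v) (t v)),
    (∀ v, (P v).IsPath ∧ bendCount (P v).support ≤ k) ∧
    ∀ u v, u ≠ v → (G.Adj u v ↔ ∃ e, e ∈ (P u).edges ∧ e ∈ (P v).edges)

/-! ## Corners -/

/-- consecutive pairs -/
def listEdges : List (ℤ × ℤ) → List (Sym2 (ℤ × ℤ))
  | a :: b :: l => s(a, b) :: listEdges (b :: l)
  | _ => []

theorem edges_eq {u v : ℤ × ℤ} (w : grid.Walk u v) : w.edges = listEdges w.support := by
  induction w with
  | nil => simp [listEdges]
  | cons h p ih =>
    cases p with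
    | nil => simp [listEdges]
    | cons h' p' =>
      simp only [SimpleGraph.Walk.edges_cons, SimpleGraph.Walk.support_cons, listEdges] at ih ⊢
      rw [ih]

/-- The horizontal segment condition. -/
def HS (p q : ℤ × ℤ) (x y : ℤ) : Prop := p.2 = y ∧ q.2 = y ∧ min p.1 q.1 ≤ x ∧ x < max p.1 q.1

/-- The vertical segment condition. -/
def VS (p q : ℤ × ℤ) (x y : ℤ) : Prop := p.1 = x ∧ q.1 = x ∧ min p.2 q.2 ≤ y ∧ y < max p.2 q.2

theorem adj_iff (a b : ℤ × ℤ) : grid.Adj a b ↔
    (a.1 = b.1 ∧ (b.2 = a.2 + 1 ∨ a.2 = b.2 + 1)) ∨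
      (a.2 = b.2 ∧ (b.1 = a.1 + 1 ∨ a.1 = b.1 + 1)) := by
  show |a.1 - b.1| + |a.2 - b.2| = 1 ↔ _
  rcases abs_cases (a.1 - b.1) with ⟨h1, h2⟩ | ⟨h1, h2⟩ <;>
    rcases abs_cases (a.2 - b.2) with ⟨h3, h4⟩ | ⟨h3, h4⟩ <;> rw [h1, h3] <;> omega

theorem hs_edge {a b : ℤ × ℤ} (h : grid.Adj a b) (x y : ℤ) :
    s((x, y), (x + 1, y)) = s(a, b) ↔ HS a b x y := by
  rw [adj_iff] at h
  obtain ⟨a1, a2⟩ := a
  obtain ⟨b1, b2⟩ := b
  simp only [Sym2.eq_iff, Prod.mk.injEq, HS] at h ⊢
  omega

theorem vs_edge {a b : ℤ × ℤ} (h : grid.Adj a b) (x y : ℤ) :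
    s((x, y), (x, y + 1)) = s(a, b) ↔ VS a b x y := by
  rw [adj_iff] at h
  obtain ⟨a1, a2⟩ := a
  obtain ⟨b1, b2⟩ := b
  simp only [Sym2.eq_iff, Prod.mk.injEq, VS] at h ⊢
  omega

/-- The corner sequence of a path. -/
theorem exists_corners (l : List (ℤ × ℤ)) : ∀ a b : ℤ × ℤ, (a :: b :: l).IsChain grid.Adj →
    (a :: b :: l).Nodup → ∃ c : ℕ → ℤ × ℤ, c 0 = a ∧
      (∃ s : ℤ, 1 ≤ s ∧ c 1 = (a.1 + s * (b.1 - a.1), a.2 + s * (b.2 - a.2))) ∧
      (∀ i, bendCount (a :: b :: l) < i → c (i + 1) = c i) ∧
      (∀ x y, s((x, y), (x + 1, y)) ∈ listEdges (a :: b :: l) ↔ ∃ i, HS (c i) (c (i + 1)) x y) ∧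
      (∀ x y, s((x, y), (x, y + 1)) ∈ listEdges (a :: b :: l) ↔
        ∃ i, VS (c i) (c (i + 1)) x y) := by
  induction l with
  | nil =>
    intro a b hch hnd
    have hab : grid.Adj a b := by simpa using hch
    refine ⟨fun i => if i = 0 then a else b, rfl, ⟨1, le_refl _, by simp⟩, ?_, ?_, ?_⟩
    · intro i hi
      have : i ≠ 0 := by simp [bendCount] at hi; omega
      simp [this]
    · intro x y
      simp only [listEdges, List.mem_singleton]
      rw [hs_edge hab]
      constructor
      · intro h; exact ⟨0, by simpa using h⟩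
      · rintro ⟨i, h⟩
        by_cases hi : i = 0
        · subst hi; simpa using h
        · simp only [hi, if_false, Nat.succ_ne_zero, HS] at h
          omega
    · intro x y
      simp only [listEdges, List.mem_singleton]
      rw [vs_edge hab]
      constructor
      · intro h; exact ⟨0, by simpa using h⟩
      · rintro ⟨i, h⟩
        by_cases hi : i = 0
        · subst hi; simpa using h
        · simp only [hi, if_false, Nat.succ_ne_zero, VS] at h
          omega
  | cons d l ih =>
    intro a b hch hnd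
    have hch' : (b :: d :: l).IsChain grid.Adj := by
      rw [List.isChain_cons_cons] at hch; exact hch.2
    have hab : grid.Adj a b := by
      rw [List.isChain_cons_cons] at hch; exact hch.1
    have hbd : grid.Adj b d := by
      rw [List.isChain_cons_cons] at hch'; exact hch'.1
    have hnd' : (b :: d :: l).Nodup := by
      rw [List.nodup_cons] at hnd; exact hnd.2
    have had : a ≠ d := by
      rw [List.nodup_cons] at hnd
      intro h
      apply hnd.1
      rw [h]
      simp
    obtain ⟨c, hc0, ⟨s, hs1, hc1⟩, hc2, hc3, hc4⟩ := ih b d hch' hnd'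
    by_cases hbend : (a.1 = b.1 ∧ b.2 = d.2) ∨ (a.2 = b.2 ∧ b.1 = d.1)
    · -- a bend at b
      have hcount : bendCount (a :: b :: d :: l) = 1 + bendCount (b :: d :: l) := by
        simp only [bendCount, hbend, if_true]
      refine ⟨fun i => if i = 0 then a else c (i - 1), rfl, ⟨1, le_refl _, ?_⟩, ?_, ?_, ?_⟩
      · simp [hc0]
      · intro i hi
        rw [hcount] at hi
        have h1 := hc2 (i - 1) (by omega)
        have h2 : i - 1 + 1 = i := by omega
        rw [h2] at h1
        have h3 : i ≠ 0 := by omega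
        simp only [h3, if_false, Nat.add_eq_zero_iff, one_ne_zero, and_false,
          Nat.add_sub_cancel]
        exact h1
      · intro x y
        rw [listEdges, List.mem_cons, hs_edge hab, hc3]
        constructor
        · rintro (h | ⟨i, h⟩)
          · exact ⟨0, by simpa [hc0] using h⟩
          · exact ⟨i + 1, by simpa using h⟩
        · rintro ⟨i, h⟩
          by_cases hi : i = 0
          · subst hi; left; simpa [hc0] using h
          · right
            refine ⟨i - 1, ?_⟩
            have h2 : i - 1 + 1 = i := by omega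
            rw [h2]
            simpa [hi] using h
      · intro x y
        rw [listEdges, List.mem_cons, vs_edge hab, hc4]
        constructor
        · rintro (h | ⟨i, h⟩)
          · exact ⟨0, by simpa [hc0] using h⟩
          · exact ⟨i + 1, by simpa using h⟩
        · rintro ⟨i, h⟩
          by_cases hi : i = 0
          · subst hi; left; simpa [hc0] using h
          · right
            refine ⟨i - 1, ?_⟩
            have h2 : i - 1 + 1 = i := by omega
            rw [h2]
            simpa [hi] using h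
    · -- straight at b
      have hcount : bendCount (a :: b :: d :: l) = bendCount (b :: d :: l) := by
        simp only [bendCount, hbend, if_false, zero_add]
      rw [adj_iff] at hbd
      have hab' := hab
      rw [adj_iff] at hab'
      have hdir : d.1 - b.1 = b.1 - a.1 ∧ d.2 - b.2 = b.2 - a.2 := by
        have hne : ¬ (a.1 = d.1 ∧ a.2 = d.2) := fun h => had (Prod.ext h.1 h.2)
        omega
      have hc1' : c 1 = (b.1 + s * (b.1 - a.1), b.2 + s * (b.2 - a.2)) := by
        rw [hc1, hdir.1, hdir.2]
      refine ⟨fun i => if i = 0 then a else c i, rfl, ⟨s + 1, by omega, ?_⟩, ?_, ?_, ?_⟩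
      · simp only [one_ne_zero, if_false]
        rw [hc1']
        ext <;> ring
      · intro i hi
        rw [hcount] at hi
        have h3 : i ≠ 0 := by omega
        simp only [h3, if_false, Nat.add_eq_zero_iff, one_ne_zero, and_false]
        exact hc2 i hi
      · intro x y
        rw [listEdges, List.mem_cons, hs_edge hab, hc3]
        have key : (HS a b x y ∨ HS (c 0) (c 1) x y) ↔ HS a (c 1) x y := by
          rw [hc0, hc1']
          unfold HS
          simp only
          rcases hab' with ⟨h1, h2 | h2⟩ | ⟨h1, h2 | h2⟩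
          · rw [h1, h2]; simp only [sub_self, mul_zero, add_zero]; omega
          · rw [h1, h2]; simp only [sub_self, mul_zero, add_zero]; omega
          · rw [h1, h2]; simp only [sub_self, mul_zero, add_zero, add_sub_cancel_left, mul_one]
            omega
          · rw [h1, h2]
            have e : b.1 - (b.1 + 1) = -1 := by ring
            rw [e]
            simp only [sub_self, mul_zero, add_zero, mul_neg, mul_one]
            omega
        constructor
        · rintro (h | ⟨i, h⟩)
          · exact ⟨0, by simpa using key.1 (Or.inl h)⟩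
          · by_cases hi : i = 0
            · subst hi
              exact ⟨0, by simpa using key.1 (Or.inr h)⟩
            · exact ⟨i, by simpa [hi] using h⟩
        · rintro ⟨i, h⟩
          by_cases hi : i = 0
          · subst hi
            have h' : HS a (c 1) x y := by simpa using h
            rcases key.2 h' with h1 | h1
            · exact Or.inl h1
            · exact Or.inr ⟨0, h1⟩
          · right
            exact ⟨i, by simpa [hi] using h⟩
      · intro x y
        rw [listEdges, List.mem_cons, vs_edge hab, hc4]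
        have key : (VS a b x y ∨ VS (c 0) (c 1) x y) ↔ VS a (c 1) x y := by
          rw [hc0, hc1']
          unfold VS
          simp only
          rcases hab' with ⟨h1, h2 | h2⟩ | ⟨h1, h2 | h2⟩
          · rw [h1, h2]; simp only [sub_self, mul_zero, add_zero, add_sub_cancel_left, mul_one]
            omega
          · rw [h1, h2]
            have e : b.2 - (b.2 + 1) = -1 := by ring
            rw [e]
            simp only [sub_self, mul_zero, add_zero, mul_neg, mul_one]
            omega
          · rw [h1, h2]; simp only [sub_self, mul_zero, add_zero]; omega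
          · rw [h1, h2]; simp only [sub_self, mul_zero, add_zero]; omega
        constructor
        · rintro (h | ⟨i, h⟩)
          · exact ⟨0, by simpa using key.1 (Or.inl h)⟩
          · by_cases hi : i = 0
            · subst hi
              exact ⟨0, by simpa using key.1 (Or.inr h)⟩
            · exact ⟨i, by simpa [hi] using h⟩
        · rintro ⟨i, h⟩
          by_cases hi : i = 0
          · subst hi
            have h' : VS a (c 1) x y := by simpa using h
            rcases key.2 h' with h1 | h1
            · exact Or.inl h1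
            · exact Or.inr ⟨0, h1⟩
          · right
            exact ⟨i, by simpa [hi] using h⟩

theorem path_corners {u v : ℤ × ℤ} (w : grid.Walk u v) (hw : w.IsPath) (k : ℕ)
    (hk : bendCount w.support ≤ k) : ∃ c : ℕ → ℤ × ℤ,
      (∀ x y, s((x, y), (x + 1, y)) ∈ w.edges ↔ ∃ i, i ≤ k ∧ HS (c i) (c (i + 1)) x y) ∧
      (∀ x y, s((x, y), (x, y + 1)) ∈ w.edges ↔ ∃ i, i ≤ k ∧ VS (c i) (c (i + 1)) x y) := by
  have hch := w.isChain_adj_support
  have hnd := hw.support_nodup
  rw [edges_eq]
  generalize w.support = l at *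
  match l, hch, hnd, hk with
  | [], _, _, _ =>
    refine ⟨fun _ => (0, 0), ?_, ?_⟩ <;> intro x y <;> simp only [listEdges] <;>
      simp only [List.not_mem_nil, false_iff, not_exists, HS, VS] <;> intro i <;> omega
  | [a], _, _, _ =>
    refine ⟨fun _ => (0, 0), ?_, ?_⟩ <;> intro x y <;> simp only [listEdges] <;>
      simp only [List.not_mem_nil, false_iff, not_exists, HS, VS] <;> intro i <;> omega
  | a :: b :: l', hch, hnd, hk =>
    obtain ⟨c, -, -, h2, h3, h4⟩ := exists_corners l' a b hch hnd
    refine ⟨c, ?_, ?_⟩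
    · intro x y
      rw [h3]
      constructor
      · rintro ⟨i, hi⟩
        refine ⟨i, ?_, hi⟩
        by_contra hcon
        have := h2 i (by omega)
        rw [this] at hi
        simp only [HS, min_self, max_self] at hi
        omega
      · rintro ⟨i, -, hi⟩; exact ⟨i, hi⟩
    · intro x y
      rw [h4]
      constructor
      · rintro ⟨i, hi⟩
        refine ⟨i, ?_, hi⟩
        by_contra hcon
        have := h2 i (by omega)
        rw [this] at hi
        simp only [VS, min_self, max_self] at hi
        omega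
      · rintro ⟨i, -, hi⟩; exact ⟨i, hi⟩

/-- Horizontal overlap in terms of comparisons. -/
def SH {α β : Type} [LT α] (p q p' q' : α × β) : Prop :=
  (p.2 = q.2 ∧ q.2 = p'.2 ∧ p'.2 = q'.2) ∧ (p.1 < q.1 ∨ q.1 < p.1) ∧
    (p.1 < p'.1 ∨ p.1 < q'.1 ∨ q.1 < p'.1 ∨ q.1 < q'.1) ∧
    (p'.1 < p.1 ∨ p'.1 < q.1 ∨ q'.1 < p.1 ∨ q'.1 < q.1) ∧ (p'.1 < q'.1 ∨ q'.1 < p'.1)

theorem sh_iff (p q p' q' : ℤ × ℤ) :
    (∃ x y, HS p q x y ∧ HS p' q' x y) ↔ SH p q p' q' := by
  unfold HS SH
  constructor
  · rintro ⟨x, y, h⟩
    omega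
  · intro h
    refine ⟨max (min p.1 q.1) (min p'.1 q'.1), p.2, ?_⟩
    omega

theorem sv_iff (p q p' q' : ℤ × ℤ) :
    (∃ x y, VS p q x y ∧ VS p' q' x y) ↔ SH p.swap q.swap p'.swap q'.swap := by
  unfold VS SH
  simp only [Prod.fst_swap, Prod.snd_swap]
  constructor
  · rintro ⟨x, y, h⟩
    omega
  · intro h
    refine ⟨p.1, max (min p.2 q.2) (min p'.2 q'.2), ?_⟩
    omega

/-- every grid edge is horizontal or vertical in normal form -/
theorem grid_edge {e : Sym2 (ℤ × ℤ)} (he : e ∈ grid.edgeSet) :
    (∃ x y, e = s((x, y), (x + 1, y))) ∨ (∃ x y, e = s((x, y), (x, y + 1))) := by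
  induction e using Sym2.ind with
  | _ a b =>
    rw [SimpleGraph.mem_edgeSet, adj_iff] at he
    obtain ⟨a1, a2⟩ := a
    obtain ⟨b1, b2⟩ := b
    simp only at he
    rcases he with ⟨h1, h2 | h2⟩ | ⟨h1, h2 | h2⟩
    · right; exact ⟨a1, a2, by rw [h1, h2]⟩
    · right; exact ⟨b1, b2, by rw [h1, h2, Sym2.eq_swap]⟩
    · left; exact ⟨a1, a2, by rw [h1, h2]⟩
    · left; exact ⟨b1, b2, by rw [h1, h2, Sym2.eq_swap]⟩

/-! ## Ranks -/

section rank

variable {J : Type} [Fintype J]

open Classical in
/-- the rank of an index by the value of X -/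
noncomputable def rk (X : J → ℤ) (j : J) : Fin (Fintype.card J) :=
  ⟨(Finset.univ.filter (fun i => X i < X j)).card, by
    rw [← Finset.card_univ]
    apply Finset.card_lt_card
    rw [Finset.ssubset_iff_of_subset (Finset.filter_subset _ _)]
    exact ⟨j, Finset.mem_univ _, by simp⟩⟩

theorem rk_lt (X : J → ℤ) (i j : J) : rk X i < rk X j ↔ X i < X j := by
  classical
  rw [Fin.lt_def]
  simp only [rk]
  constructor
  · intro h
    by_contra hcon
    push Not at hcon
    have : (Finset.univ.filter (fun l => X l < X j)).card ≤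
        (Finset.univ.filter (fun l => X l < X i)).card := by
      apply Finset.card_le_card
      intro l hl
      simp only [Finset.mem_filter, Finset.mem_univ, true_and] at hl ⊢
      omega
    omega
  · intro h
    apply Finset.card_lt_card
    rw [Finset.ssubset_iff_of_subset]
    · exact ⟨i, by simpa using h, by simp⟩
    · intro l hl
      simp only [Finset.mem_filter, Finset.mem_univ, true_and] at hl ⊢
      omega

theorem rk_eq (X : J → ℤ) (i j : J) : rk X i = rk X j ↔ X i = X j := by
  have h1 := rk_lt X i j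
  have h2 := rk_lt X j i
  constructor
  · intro h
    rw [h] at h1 h2
    simp only [lt_self_iff_false, false_iff, not_lt] at h1 h2
    omega
  · intro h
    rw [h] at h1 h2
    simp only [lt_self_iff_false, iff_false, not_lt] at h1 h2
    exact le_antisymm h2 h1

end rank

/-- Adjacency computed from a table of points. -/
def tableAdj {V α : Type} [LT α] (k : ℕ) (D : V × Fin (k + 2) → α × α) (u v : V) : Prop :=
  ∃ i j : Fin (k + 1),
    SH (D (u, i.castSucc)) (D (u, i.succ)) (D (v, j.castSucc)) (D (v, j.succ)) ∨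
    SH (D (u, i.castSucc)).swap (D (u, i.succ)).swap (D (v, j.castSucc)).swap (D (v, j.succ)).swap

theorem tableAdj_rank {V : Type} [Fintype V] (k : ℕ) (D : V × Fin (k + 2) → ℤ × ℤ) (u v : V) :
    tableAdj k (fun j => (rk (fun i => (D i).1) j, rk (fun i => (D i).2) j)) u v ↔
      tableAdj k D u v := by
  unfold tableAdj SH
  simp only [Prod.fst_swap, Prod.snd_swap, rk_lt, rk_eq]

/-- A k-bend representation gives a table over a small set. -/
theorem exists_table {V : Type} [Fintype V] (G : SimpleGraph V) (k : ℕ) (h : HasEPG G k) :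
    ∃ D : V × Fin (k + 2) → Fin (Fintype.card (V × Fin (k + 2))) ×
      Fin (Fintype.card (V × Fin (k + 2))), ∀ u v, u ≠ v → (G.Adj u v ↔ tableAdj k D u v) := by
  obtain ⟨s, t, P, hP, hadj⟩ := h
  have hc := fun v => path_corners (P v) (hP v).1 k (hP v).2
  choose c hcH hcV using hc
  let D : V × Fin (k + 2) → ℤ × ℤ := fun j => c j.1 j.2.val
  refine ⟨fun j => (rk (fun i => (D i).1) j, rk (fun i => (D i).2) j), fun u v huv => ?_⟩
  rw [tableAdj_rank, hadj u v huv]
  unfold tableAdj
  simp only [D, Fin.val_castSucc, Fin.val_succ]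
  constructor
  · rintro ⟨e, he1, he2⟩
    rcases grid_edge ((P u).edges_subset_edgeSet he1) with ⟨x, y, rfl⟩ | ⟨x, y, rfl⟩
    · rw [hcH] at he1 he2
      obtain ⟨i, hi, h1⟩ := he1
      obtain ⟨j, hj, h2⟩ := he2
      exact ⟨⟨i, by omega⟩, ⟨j, by omega⟩, Or.inl ((sh_iff _ _ _ _).1 ⟨x, y, h1, h2⟩)⟩
    · rw [hcV] at he1 he2
      obtain ⟨i, hi, h1⟩ := he1
      obtain ⟨j, hj, h2⟩ := he2
      exact ⟨⟨i, by omega⟩, ⟨j, by omega⟩, Or.inr ((sv_iff _ _ _ _).1 ⟨x, y, h1, h2⟩)⟩
  · rintro ⟨i, j, h | h⟩
    · obtain ⟨x, y, h1, h2⟩ := (sh_iff _ _ _ _).2 h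
      exact ⟨_, (hcH u x y).2 ⟨i, by omega, h1⟩, (hcH v x y).2 ⟨j, by omega, h2⟩⟩
    · obtain ⟨x, y, h1, h2⟩ := (sv_iff _ _ _ _).2 h
      exact ⟨_, (hcV u x y).2 ⟨i, by omega, h1⟩, (hcV v x y).2 ⟨j, by omega, h2⟩⟩

/-! ## Cobipartite graphs -/

/-- Two cliques of size m joined according to S. -/
def cob (m : ℕ) (S : Finset (Fin m × Fin m)) : SimpleGraph (Fin m ⊕ Fin m) where
  Adj
    | Sum.inl i, Sum.inl j => i ≠ j
    | Sum.inr i, Sum.inr j => i ≠ j
    | Sum.inl i, Sum.inr j => (i, j) ∈ S
    | Sum.inr j, Sum.inl i => (i, j) ∈ S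
  symm := ⟨by rintro (i | i) (j | j) h <;> first | exact h.symm | exact h⟩
  loopless := ⟨by rintro (i | i) h <;> exact h rfl⟩

theorem cob_claw_free (m : ℕ) (S : Finset (Fin m × Fin m)) :
    IsEmpty (completeBipartiteGraph (Fin 1) (Fin 3) ↪g cob m S) := by
  refine ⟨fun f => ?_⟩
  have hna : ∀ i j : Fin 3, ¬ (cob m S).Adj (f (Sum.inr i)) (f (Sum.inr j)) := by
    intro i j h
    rw [f.map_adj_iff] at h
    simp at h
  have hinj : ∀ i j : Fin 3, i ≠ j → f (Sum.inr i) ≠ f (Sum.inr j) := by
    intro i j hij h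
    exact hij (Sum.inr_injective (f.injective h))
  have hside : ∀ i j : Fin 3, i ≠ j → (f (Sum.inr i)).isLeft ≠ (f (Sum.inr j)).isLeft := by
    intro i j hij h
    have h1 := hna i j
    have h2 := hinj i j hij
    cases hfi : f (Sum.inr i) with
    | inl a =>
      cases hfj : f (Sum.inr j) with
      | inl b =>
        rw [hfi, hfj] at h1 h2
        exact h1 (fun hab => h2 (by rw [hab]))
      | inr b => rw [hfi, hfj] at h; simp at h
    | inr a =>
      cases hfj : f (Sum.inr j) with
      | inl b => rw [hfi, hfj] at h; simp at h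
      | inr b =>
        rw [hfi, hfj] at h1 h2
        exact h1 (fun hab => h2 (by rw [hab]))
  have h01 := hside 0 1 (by decide)
  have h12 := hside 1 2 (by decide)
  have h02 := hside 0 2 (by decide)
  generalize (f (Sum.inr 0)).isLeft = a at *
  generalize (f (Sum.inr 1)).isLeft = b at *
  generalize (f (Sum.inr 2)).isLeft = c at *
  revert a b c
  decide

/-- **Claw-free graphs have unbounded bend-number.** -/
theorem result : ∀ k : ℕ, ∃ (V : Type) (_ : Fintype V) (G : SimpleGraph V),
    IsEmpty (completeBipartiteGraph (Fin 1) (Fin 3) ↪g G) ∧ ¬ HasEPG G k := by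
  classical
  intro k
  obtain ⟨m, hm⟩ : ∃ m : ℕ, m = 2 ^ (2 * k + 10) := ⟨_, rfl⟩
  by_contra hno
  push Not at hno
  have hall : ∀ S : Finset (Fin m × Fin m), HasEPG (cob m S) k :=
    fun S => hno _ inferInstance _ (cob_claw_free m S)
  choose D hD using fun S => exists_table (cob m S) k (hall S)
  have hinj : Function.Injective D := by
    intro S S' h
    ext ⟨i, j⟩
    have h1 := hD S (Sum.inl i) (Sum.inr j) (by simp)
    have h2 := hD S' (Sum.inl i) (Sum.inr j) (by simp)
    rw [h, ← h2] at h1
    exact h1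
  have hcard := Fintype.card_le_of_injective D hinj
  set M := Fintype.card ((Fin m ⊕ Fin m) × Fin (k + 2)) with hM
  have hMval : M = 2 * m * (k + 2) := by
    rw [hM]
    simp only [Fintype.card_prod, Fintype.card_sum, Fintype.card_fin]
    ring
  rw [Fintype.card_finset, Fintype.card_prod, Fintype.card_fin, Fintype.card_fun,
    Fintype.card_prod, Fintype.card_fin, ← hM] at hcard
  have hk1 : k + 1 ≤ 2 ^ k := Nat.lt_two_pow_self
  have hMle : M ≤ 2 ^ (3 * k + 12) := by
    rw [hMval, hm]
    calc 2 * 2 ^ (2 * k + 10) * (k + 2) ≤ 2 * 2 ^ (2 * k + 10) * 2 ^ (k + 1) := by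
          apply Nat.mul_le_mul_left
          rw [pow_succ]; omega
      _ = 2 ^ (3 * k + 12) := by
          rw [← pow_succ', ← pow_add]
          congr 1
          ring
  have h1 : (M * M) ^ M ≤ 2 ^ ((3 * k + 12) * 2 * M) := by
    calc (M * M) ^ M ≤ (2 ^ (3 * k + 12) * 2 ^ (3 * k + 12)) ^ M :=
          Nat.pow_le_pow_left (Nat.mul_le_mul hMle hMle) _
      _ = 2 ^ ((3 * k + 12) * 2 * M) := by
          rw [← pow_add, ← pow_mul]
          congr 1
          ring
  have h2 : m * m ≤ (3 * k + 12) * 2 * M := by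
    have := hcard.trans h1
    exact (Nat.pow_le_pow_iff_right (by norm_num)).1 this
  have h3 : (3 * k + 12) * 2 * M < m * m := by
    rw [hMval]
    have h4 : (3 * k + 12) * 2 * (2 * (k + 2)) < m := by
      rw [hm]
      have h5 : (k + 1) * (k + 1) ≤ 2 ^ k * 2 ^ k := Nat.mul_le_mul hk1 hk1
      have h6 : 2 ^ (2 * k + 10) = 1024 * (2 ^ k * 2 ^ k) := by
        rw [pow_add, two_mul, pow_add]; ring
      rw [h6]
      nlinarith
    have hmpos : 0 < m := by rw [hm]; positivity
    calc (3 * k + 12) * 2 * (2 * m * (k + 2)) = (3 * k + 12) * 2 * (2 * (k + 2)) * m := by ring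
      _ < m * m := (Nat.mul_lt_mul_right hmpos).2 h4
  omega

end Pool.Agent.Results.MP_fe8c60_co.CobipartiteCounting
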